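import Pool.Agent.H87.VOc4

namespace Pool.Agent.Results.MP_05d620_an.Counter

open Pool.Agent.H87.VOc Pool.Agent.H56.RT in
/-- A pointed metric space `M` and a nonzero finite dimensional Banach space `X` such that `F(M)` is
octahedral while the completed projective tensor product `E` of `F(M)` and `X` is not. -/
theorem result : ∃ (M : Type) (_ : MetricSpace M) (o : M) (X : Type) (_ : NormedAddCommGroup X)
    (_ : NormedSpace ℝ X) (E : Type) (_ : NormedAddCommGroup E) (_ : NormedSpace ℝ E)
    (t : Free o → X → E), CompleteSpace X ∧ Nontrivial X ∧ FiniteDimensional ℝ X ∧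
    IsProjTensor t ∧ Octa (Free o) ∧ ¬ Octa E :=
  ⟨Q, inferInstance, o, XX, inferInstance, inferInstance, PT F XX, inferInstance, inferInstance,
    tens, inferInstance, nontriv, inferInstance, isProj, octa_F, main⟩

end Pool.Agent.Results.MP_05d620_an.Counter
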